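import Pool.Agent.H59.CW.Trans

/-!
The maximum number of vectors of weight `w` in a `k`-dimensional subspace of the space of
binary vectors of length `n`, for even `w` and large `k`.
-/

namespace Pool.Agent.Results.MP_31d77a_co.EvenLarge

open Finset Pool.Agent.H59.CW

/-- The set of all numbers of weight-`w` vectors in `k`-dimensional subspaces of the space of
binary vectors of length `n`; its largest element is the quantity asked for. -/
def Sizes (n k w : ℕ) : Set ℕ :=
  {m | ∃ U : Submodule (ZMod 2) (Fin n → ZMod 2), Module.finrank (ZMod 2) U = k ∧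
    {x : Fin n → ZMod 2 | x ∈ U ∧ hammingNorm x = w}.ncard = m}

variable {n k w : ℕ}

theorem mem_sizes (A : Finset (Finset (Fin n))) (h0 : ∅ ∈ A)
    (h1 : ∀ x ∈ A, ∀ y ∈ A, symmDiff x y ∈ A) (hc : A.card = 2 ^ k) : cnt A w ∈ Sizes n k w := by
  refine ⟨sub A h0 h1, ?_, ?_⟩
  · rw [card_of_finrank, fam_sub, hc]
  · rw [fam_count, fam_sub]

theorem exists_set (h : k ≤ n) : ∃ S : Finset (Fin n), S.card = k := by
  obtain ⟨S, _, hS⟩ := Finset.exists_subset_card_eq
    (s := (Finset.univ : Finset (Fin n))) (n := k) (by simpa using h)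
  exact ⟨S, hS⟩

theorem upper_even (hw : 2 * w ≤ k + 1) {m : ℕ} (hm : m ∈ Sizes n k w) :
    m ≤ (k + 1).choose w := by
  obtain ⟨U, hU, rfl⟩ := hm
  rw [fam_count]
  exact QB_all w _ k (fam_flat U) (card_of_finrank.1 hU) hw

theorem lower_even (hw : Even w) (hk : k < n) : (k + 1).choose w ∈ Sizes n k w := by
  obtain ⟨S, hS⟩ := exists_set (k := k + 1) (n := n) (by omega)
  have := mem_sizes (w := w) (k := k) (S.powerset.filter (fun x => ¬ Odd x.card))
    (by simp) (by
    intro x hx y hy
    rw [Finset.mem_filter, Finset.mem_powerset] at *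
    refine ⟨?_, ?_⟩
    · intro t ht
      rw [Finset.mem_symmDiff] at ht
      rcases ht with h | h
      · exact hx.1 h.1
      · exact hy.1 h.1
    · rw [odd_symmDiff]; tauto) (card_odd_powerset hS).2
  convert this using 1
  unfold cnt
  rw [← hS, ← Finset.card_powersetCard]
  congr 1
  ext x
  simp only [Finset.mem_powersetCard, Finset.mem_filter, Finset.mem_powerset]
  constructor
  · rintro ⟨h1, h2⟩
    exact ⟨⟨h1, by rw [h2, Nat.not_odd_iff_even]; exact hw⟩, h2⟩
  · rintro ⟨h1, h2⟩
    exact ⟨h1.1, h2⟩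

/-- For even `w`, `2 w ≤ k + 1` and `k < n` the maximum number of vectors of weight `w` in a
`k`-dimensional subspace of the space of binary vectors of length `n` is `C(k+1, w)`. -/
theorem result (n k w : ℕ) (hkn : k < n) (hw : Even w) (hk : 2 * w ≤ k + 1) :
    IsGreatest (Sizes n k w) ((k + 1).choose w) :=
  ⟨lower_even hw hkn, fun _ hm => upper_even hk hm⟩

end Pool.Agent.Results.MP_31d77a_co.EvenLarge
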