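import Pool.Agent.H59.MW.Odd

/-!
The maximum number of vectors of weight `w` in a `k`-dimensional subspace of the space of
binary vectors of length `n`, for every odd `w`.
-/

namespace Pool.Agent.Results.MP_31d77a_co.OddWeight

open Finset Pool.Agent.H59.CW Pool.Agent.H59.MW

/-- The set of all numbers of weight-`w` vectors in `k`-dimensional subspaces of the space of
binary vectors of length `n`; its largest element is the quantity asked for. -/
def Sizes (n k w : ℕ) : Set ℕ :=
  {m | ∃ U : Submodule (ZMod 2) (Fin n → ZMod 2), Module.finrank (ZMod 2) U = k ∧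
    {x : Fin n → ZMod 2 | x ∈ U ∧ hammingNorm x = w}.ncard = m}

variable {n k w : ℕ}

theorem mem_sizes (A : Finset (Finset (Fin n))) (h0 : ∅ ∈ A)
    (h1 : ∀ x ∈ A, ∀ y ∈ A, symmDiff x y ∈ A) (hc : A.card = 2 ^ k) : cnt A w ∈ Sizes n k w := by
  refine ⟨sub A h0 h1, ?_, ?_⟩
  · rw [card_of_finrank, fam_sub, hc]
  · rw [fam_count, fam_sub]

theorem exists_set (h : k ≤ n) : ∃ S : Finset (Fin n), S.card = k := by
  obtain ⟨S, _, hS⟩ := Finset.exists_subset_card_eq
    (s := (Finset.univ : Finset (Fin n))) (n := k) (by simpa using h)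
  exact ⟨S, hS⟩

theorem lower_one (hk : k ≤ n) : k.choose w ∈ Sizes n k w := by
  obtain ⟨S, hS⟩ := exists_set hk
  have := mem_sizes (w := w) (k := k) S.powerset (by simp) (by
    intro x hx y hy
    rw [Finset.mem_powerset] at *
    intro t ht
    rw [Finset.mem_symmDiff] at ht
    rcases ht with h | h
    · exact hx h.1
    · exact hy h.1) (by rw [Finset.card_powerset, hS])
  convert this using 1
  unfold cnt
  rw [← hS, ← Finset.card_powersetCard]
  congr 1
  ext x
  simp only [Finset.mem_powersetCard, Finset.mem_filter, Finset.mem_powerset]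

theorem lower_compl (hw : Odd w) (hwn : w ≤ n) (hk1 : 1 ≤ k) (hkn : k ≤ n)
    (hk : n - w ≤ k) : k.choose (n - w) ∈ Sizes n k w := by
  obtain ⟨S, hS⟩ := exists_set hkn
  set A : Finset (Finset (Fin n)) := Finset.univ.filter
    (fun x => (x ⊆ S ∧ ¬ Odd x.card) ∨ (xᶜ ⊆ S ∧ Odd x.card)) with hA
  have hsd : ∀ x y : Finset (Fin n), ∀ t, t ∈ symmDiff x y ↔ ¬ (t ∈ x ↔ t ∈ y) := by
    intro x y t
    rw [Finset.mem_symmDiff]; tauto
  have h1 : ∀ x ∈ A, ∀ y ∈ A, symmDiff x y ∈ A := by
    intro x hx y hy
    simp only [hA, Finset.mem_filter, Finset.mem_univ, true_and] at hx hy ⊢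
    rw [odd_symmDiff]
    rcases hx with ⟨hx, hx'⟩ | ⟨hx, hx'⟩ <;> rcases hy with ⟨hy, hy'⟩ | ⟨hy, hy'⟩
    · left
      refine ⟨?_, by tauto⟩
      intro t ht
      rw [hsd] at ht
      by_contra hS
      have a1 : t ∉ x := fun h => hS (hx h)
      have a2 : t ∉ y := fun h => hS (hy h)
      tauto
    · right
      refine ⟨?_, by tauto⟩
      intro t ht
      rw [Finset.mem_compl, hsd] at ht
      by_contra hS
      have a1 : t ∉ x := fun h => hS (hx h)
      have a2 : t ∈ y := by
        by_contra h; exact hS (hy (by simpa using h))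
      tauto
    · right
      refine ⟨?_, by tauto⟩
      intro t ht
      rw [Finset.mem_compl, hsd] at ht
      by_contra hS
      have a1 : t ∉ y := fun h => hS (hy h)
      have a2 : t ∈ x := by
        by_contra h; exact hS (hx (by simpa using h))
      tauto
    · left
      refine ⟨?_, by tauto⟩
      intro t ht
      rw [hsd] at ht
      by_contra hS
      have a1 : t ∈ y := by
        by_contra h; exact hS (hy (by simpa using h))
      have a2 : t ∈ x := by
        by_contra h; exact hS (hx (by simpa using h))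
      tauto
  have h0 : ∅ ∈ A := by
    simp only [hA, Finset.mem_filter, Finset.mem_univ, true_and]
    left; simp
  have hf : Flat A := ⟨⟨∅, h0⟩, fun _ hx _ hy _ hz => h1 _ (h1 _ hx _ hy) _ hz⟩
  have hpar : ∀ x : Finset (Fin n), xᶜ.card = n - x.card := by
    intro x; rw [Finset.card_compl, Fintype.card_fin]
  -- the members of size w
  have hcnt : cnt A w = k.choose (n - w) := by
    unfold cnt
    have e1 : A.filter (fun x => x.card = w) = (S.powersetCard (n - w)).image (fun x => xᶜ) := by
      ext x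
      simp only [hA, Finset.mem_filter, Finset.mem_univ, true_and, Finset.mem_image,
        Finset.mem_powersetCard]
      constructor
      · rintro ⟨h2, h3⟩
        refine ⟨xᶜ, ⟨?_, by rw [hpar, h3]⟩, compl_compl x⟩
        rcases h2 with h2 | h2
        · exact absurd (by rw [h3]; exact hw) h2.2
        · exact h2.1
      · rintro ⟨y, ⟨h2, h3⟩, rfl⟩
        have h4 : yᶜ.card = w := by rw [hpar, h3]; omega
        refine ⟨Or.inr ⟨by rw [compl_compl]; exact h2, by rw [h4]; exact hw⟩, h4⟩
    rw [e1, Finset.card_image_of_injective _ compl_injective, Finset.card_powersetCard, hS]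
  have hodd : ∃ x ∈ A, Odd x.card := by
    have hpos : 0 < cnt A w := by rw [hcnt]; exact Nat.choose_pos hk
    unfold cnt at hpos
    obtain ⟨x, hx⟩ := Finset.card_pos.1 hpos
    rw [Finset.mem_filter] at hx
    exact ⟨x, hx.1, by rw [hx.2]; exact hw⟩
  have heven : ∃ x ∈ A, ¬ Odd x.card := ⟨∅, h0, by simp⟩
  obtain ⟨d, rfl⟩ : ∃ d, k = d + 1 := ⟨k - 1, by omega⟩
  have hc : A.card = 2 ^ (d + 1) := by
    have e1 := hf.card_half aff_odd hodd heven
    have e2 := card_filter_add (A := A) (fun x => Odd x.card)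
    have e3 : A.filter (fun x => ¬ Odd x.card) = S.powerset.filter (fun x => ¬ Odd x.card) := by
      ext x
      simp only [hA, Finset.mem_filter, Finset.mem_univ, true_and, Finset.mem_powerset]
      tauto
    rw [e3, (card_odd_powerset hS).2] at e1 e2
    rw [pow_succ]; omega
  rw [← hcnt]
  exact mem_sizes A h0 h1 hc

/-- The value for odd weight: with `v = min w (n - w)` it is `C(k, v)` if `2 v ≤ k`,
`C(2 (k - v), k - v) * 2 ^ (2 v - k)` if `v < k < 2 v`, and `2 ^ (k - 1)` if `k ≤ v`. -/
def oddValue (k v : ℕ) : ℕ :=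
  if 2 * v ≤ k then k.choose v
  else if v < k then (2 * (k - v)).choose (k - v) * 2 ^ (2 * v - k)
  else 2 ^ (k - 1)

theorem odd_large (hk : 1 ≤ k) (hkn : k ≤ n) (hwn : w ≤ n) (hw : Odd w)
    (h2 : 2 * min w (n - w) ≤ k) : IsGreatest (Sizes n k w) (k.choose (min w (n - w))) := by
  rcases le_total w (n - w) with h | h
  · rw [min_eq_left h] at h2 ⊢
    refine ⟨lower_one hkn, ?_⟩
    rintro m ⟨U, hU, rfl⟩
    rw [fam_count]
    exact upper_odd (fam_flat U) (empty_mem_fam U) (card_of_finrank.1 hU) hw h2
  · rw [min_eq_right h] at h2 ⊢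
    refine ⟨lower_compl hw hwn hk hkn (by omega), ?_⟩
    rintro m ⟨U, hU, rfl⟩
    rw [fam_count]
    exact upper_odd_compl (fam_flat U) (empty_mem_fam U) (card_of_finrank.1 hU) hw h2

theorem odd_of_flat (hk : 1 ≤ k) (hwn : w ≤ n) (hw : Odd w) {N : ℕ}
    (H1 : ∃ (X : Finset (Fin n)) (A : Finset (Finset (Fin n))),
      Good X A (k - 1) (min w (n - w)) N)
    (H2 : ∀ B : Finset (Finset (Fin n)), Flat B → B.card = 2 ^ (k - 1) →
      cnt B (min w (n - w)) ≤ N) : IsGreatest (Sizes n k w) N := by
  refine ⟨?_, ?_⟩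
  · obtain ⟨B, h0, h1, h2, h3⟩ := lower_of_flat hk hw hwn H1
    rw [← h3]
    exact mem_sizes B h0 h1 h2
  · rintro m ⟨U, hU, rfl⟩
    rw [fam_count]
    exact upper_of_flat (fam_flat U) (empty_mem_fam U) (card_of_finrank.1 hU) hw hwn H2

/-- For `1 ≤ k ≤ n` and every odd `w ≤ n` the maximum number of vectors of weight `w` in a
`k`-dimensional subspace of the space of binary vectors of length `n` is
`oddValue k (min w (n - w))`. -/
theorem result (n k w : ℕ) (hk : 1 ≤ k) (hkn : k ≤ n) (hwn : w ≤ n) (hw : Odd w) :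
    IsGreatest (Sizes n k w) (oddValue k (min w (n - w))) := by
  unfold oddValue
  have hv : 2 * min w (n - w) ≤ n := by
    rcases le_total w (n - w) with h | h
    · rw [min_eq_left h]; omega
    · rw [min_eq_right h]; omega
  split_ifs with h1 h2
  · exact odd_large hk hkn hwn hw h1
  · apply odd_of_flat hk hwn hw
    · have := good_mid (n := n) (e := k - min w (n - w)) (v := min w (n - w)) (by omega)
        (by omega) hv
      have e1 : min w (n - w) + (k - min w (n - w)) - 1 = k - 1 := by omega
      have e2 : min w (n - w) - (k - min w (n - w)) = 2 * min w (n - w) - k := by omega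
      rw [e1, e2, mul_comm] at this
      exact this
    · intro B hB hc
      exact cnt_le_mid hB hc h2 (by omega)
  · apply odd_of_flat hk hwn hw
    · exact good_small (by omega) hv
    · intro B hB hc
      rw [← hc]
      exact cnt_le_card

end Pool.Agent.Results.MP_31d77a_co.OddWeight
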