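import Pool.Agent.H59.MW.EvenUp
import Pool.Agent.H59.MW.EvenLow

/-!
The maximum number of vectors of weight `2^a s`, `s` odd, in a `k`-dimensional subspace of the
space of binary vectors of length `n`, for `a + 1 ≤ k ≤ s + a + 1` and large `n`.
-/

namespace Pool.Agent.Results.MP_31d77a_co.SmallDimension

open Finset Pool.Agent.H59.CW Pool.Agent.H59.MW

/-- The set of all numbers of weight-`w` vectors in `k`-dimensional subspaces of the space of
binary vectors of length `n`; its largest element is the quantity asked for. -/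
def Sizes (n k w : ℕ) : Set ℕ :=
  {m | ∃ U : Submodule (ZMod 2) (Fin n → ZMod 2), Module.finrank (ZMod 2) U = k ∧
    {x : Fin n → ZMod 2 | x ∈ U ∧ hammingNorm x = w}.ncard = m}

theorem upper {n k a s : ℕ} (hs : Odd s) (hk : a + 1 ≤ k) {m : ℕ}
    (hm : m ∈ Sizes n k (2 ^ a * s)) : m ≤ 2 ^ k - 2 ^ (k - a - 1) := by
  obtain ⟨U, hU, rfl⟩ := hm
  rw [fam_count]
  exact Lin.upper ⟨empty_mem_fam U, fun _ hx _ hy => fam_symmDiff hx hy⟩
    (card_of_finrank.1 hU) hs hk

/-- For `w = 2^a s` with `s` odd, `a + 1 ≤ k ≤ s + a + 1` and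
`n ≥ (2^(a+1) - 1) s + (k - a - 1)` the maximum number of vectors of weight `w` in a
`k`-dimensional subspace is `2^k - 2^(k-a-1)`; the upper bound holds for all `n` and `k ≥ a+1`. -/
theorem result (n k a s : ℕ) (hs : Odd s) (hk : a + 1 ≤ k) :
    (∀ m ∈ Sizes n k (2 ^ a * s), m ≤ 2 ^ k - 2 ^ (k - a - 1)) ∧
    (k ≤ s + a + 1 → (2 ^ (a + 1) - 1) * s + (k - a - 1) ≤ n →
      IsGreatest (Sizes n k (2 ^ a * s)) (2 ^ k - 2 ^ (k - a - 1))) := by
  refine ⟨fun m hm => upper hs hk hm, ?_⟩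
  intro hks hn
  refine ⟨?_, fun m hm => upper hs hk hm⟩
  obtain ⟨U, hU, hle⟩ := exists_small n a s (k - a - 1) hs.pos (by omega) hn
  have e1 : a + 1 + (k - a - 1) = k := by omega
  rw [e1] at hU hle
  exact ⟨U, hU, le_antisymm (upper hs hk ⟨U, hU, rfl⟩) hle⟩

end Pool.Agent.Results.MP_31d77a_co.SmallDimension
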