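import Pool.Agent.H47.ST.UPX
import Pool.Agent.H47.ST.Zero

/-!
The leading order of the maximum number of vectors of weight `w` in a `k`-dimensional subspace
of the space of binary vectors of length `n`, for all `n`, `k`, as `w → ∞`.
-/

namespace Pool.Agent.Results.MP_31d77a_co.Staircase

open Finset Pool.Agent.H59.CW Pool.Agent.H59.MW Pool.Agent.H47.ST

/-- The set of all numbers of weight-`w` vectors in `k`-dimensional subspaces of the space of
binary vectors of length `n`; its largest element is the quantity asked for. -/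
def Sizes (n k w : ℕ) : Set ℕ :=
  {m | ∃ U : Submodule (ZMod 2) (Fin n → ZMod 2), Module.finrank (ZMod 2) U = k ∧
    {x : Fin n → ZMod 2 | x ∈ U ∧ hammingNorm x = w}.ncard = m}

theorem sizes_nonempty {n k w : ℕ} (h : k ≤ n) : (Sizes n k w).Nonempty := by
  set L : (Fin k → ZMod 2) →ₗ[ZMod 2] (Fin n → ZMod 2) :=
    Function.ExtendByZero.linearMap (ZMod 2) (Fin.castLE h) with hL
  have hinj : Function.Injective L := by
    intro v v' hv
    funext i
    have h1 := congrFun hv (Fin.castLE h i)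
    have h2 : ∀ u : Fin k → ZMod 2, L u (Fin.castLE h i) = u i := by
      intro u
      show Function.extend (Fin.castLE h) u 0 (Fin.castLE h i) = u i
      rw [(Fin.castLE_injective h).extend_apply]
    rwa [h2, h2] at h1
  refine ⟨_, LinearMap.range L, ?_, rfl⟩
  rw [LinearMap.finrank_range_of_inj hinj, Module.finrank_fin_fun]

/-- Let `D = max 0 (2w - n)`, `w = 2^a s` with `s` odd, and `(2^(-j) + ε) w ≤ k + D`, and, if
`j ≥ 1`, also `k + D ≤ 2^(1-j) w`. With `μ = min j (a+1) k` the maximum `γ` of `Sizes n k w`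
satisfies `(1 - 2^(-μ)) 2^k ≤ γ ≤ (1 - 2^(-μ) + ε) 2^k` if `w` is large. -/
theorem result (ε : ℝ) (hε : 0 < ε) : ∃ w₀ : ℕ, ∀ w ≥ w₀, ∀ n k j a s : ℕ, 1 ≤ k → k ≤ n →
    w = 2 ^ a * s → Odd s →
    ((1 / 2 : ℝ) ^ j + ε) * w ≤ k + ((2 * w - n : ℕ) : ℝ) →
    (1 ≤ j → 2 ^ (j - 1) * (k + (2 * w - n)) ≤ w) →
    (∀ m ∈ Sizes n k w, (m : ℝ) ≤ (1 - (1 / 2 : ℝ) ^ min j (min (a + 1) k) + ε) * 2 ^ k) ∧
    ∃ m ∈ Sizes n k w, (1 - (1 / 2 : ℝ) ^ min j (min (a + 1) k)) * 2 ^ k ≤ m := by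
  obtain ⟨w₁, h₁⟩ := upper_all hε
  obtain ⟨w₂, h₂⟩ := upper_zero hε
  refine ⟨max (max w₁ w₂) 1, ?_⟩
  intro w hw n k j a s hk hkn hwa hs hlow hup
  have hw1 : w₁ ≤ w := (le_max_left _ _).trans ((le_max_left _ _).trans hw)
  have hw2 : w₂ ≤ w := (le_max_right _ _).trans ((le_max_left _ _).trans hw)
  have hw3 : 1 ≤ w := (le_max_right _ _).trans hw
  have hp : (0 : ℝ) < 2 ^ k := by positivity
  have hpow : ∀ i ≤ k, ((2 ^ k - 2 ^ (k - i) : ℕ) : ℝ) = (1 - (1 / 2 : ℝ) ^ i) * 2 ^ k := by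
    intro i hi
    have h1 : 2 ^ (k - i) ≤ 2 ^ k := Nat.pow_le_pow_right (by norm_num) (Nat.sub_le _ _)
    rw [Nat.cast_sub h1]
    push_cast
    have h2 : (2 : ℝ) ^ k = 2 ^ (k - i) * 2 ^ i := by rw [← pow_add, Nat.sub_add_cancel hi]
    have h3 : (1 / 2 : ℝ) ^ i * 2 ^ i = 1 := by rw [← mul_pow]; norm_num
    rw [sub_mul, one_mul]
    congr 1
    calc (2 : ℝ) ^ (k - i) = 2 ^ (k - i) * ((1 / 2 : ℝ) ^ i * 2 ^ i) := by rw [h3, mul_one]
      _ = (1 / 2 : ℝ) ^ i * 2 ^ k := by rw [h2]; ring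
  rcases Nat.eq_zero_or_pos j with hj | hj
  · subst hj
    rw [Nat.zero_min, pow_zero, sub_self, zero_add, zero_mul]
    refine ⟨?_, ?_⟩
    · rintro m ⟨U, hU, rfl⟩
      apply h₂ w hw2 n k U hU
      rw [pow_zero] at hlow
      exact hlow
    · obtain ⟨m, hm⟩ := sizes_nonempty (w := w) hkn
      exact ⟨m, hm, Nat.cast_nonneg _⟩
  · set μ := min j (min (a + 1) k) with hμ
    have hμ1 : 1 ≤ μ := le_min hj (le_min (Nat.succ_le_succ (Nat.zero_le _)) hk)
    have hμj : μ ≤ j := min_le_left _ _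
    have hμa : μ ≤ a + 1 := (min_le_right _ _).trans (min_le_left _ _)
    have hμk : μ ≤ k := (min_le_right _ _).trans (min_le_right _ _)
    refine ⟨?_, ?_⟩
    · rintro m ⟨U, hU, rfl⟩
      rcases min_choice j (min (a + 1) k) with h | h
      · rw [hμ, h]
        exact h₁ w hw1 n k j U hj hU hlow
      · rcases min_choice (a + 1) k with h' | h'
        · have hak : a + 1 ≤ k := by rw [← h']; exact min_le_right _ _
          have e1 : μ = a + 1 := by rw [hμ, h, h']
          rw [e1]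
          have h3 : {x : Fin n → ZMod 2 | x ∈ U ∧ hammingNorm x = w}.ncard ≤
              2 ^ k - 2 ^ (k - (a + 1)) := by
            rw [fam_count, hwa]
            exact Lin.upper ⟨empty_mem_fam U, fun _ hx _ hy => fam_symmDiff hx hy⟩
              (card_of_finrank.1 hU) hs hak
          have h4 : ({x : Fin n → ZMod 2 | x ∈ U ∧ hammingNorm x = w}.ncard : ℝ) ≤
              ((2 ^ k - 2 ^ (k - (a + 1)) : ℕ) : ℝ) := by exact_mod_cast h3
          rw [hpow (a + 1) hak] at h4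
          have : 0 < ε * 2 ^ k := by positivity
          linarith
        · have e1 : μ = k := by rw [hμ, h, h']
          rw [e1]
          have h3 := upper_triv hw3 U hU
          have h4 : ({x : Fin n → ZMod 2 | x ∈ U ∧ hammingNorm x = w}.ncard : ℝ) + 1 ≤
              2 ^ k := by exact_mod_cast h3
          have h5 : (1 / 2 : ℝ) ^ k * 2 ^ k = 1 := by rw [← mul_pow]; norm_num
          have : 0 < ε * 2 ^ k := by positivity
          nlinarith
    · have hd : 2 ^ (μ - 1) ∣ w := by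
        rw [hwa]
        exact Dvd.dvd.mul_right (pow_dvd_pow 2 (by omega)) s
      have hle : 2 ^ (μ - 1) * (k + (2 * w - n)) ≤ w :=
        (Nat.mul_le_mul_right _ (Nat.pow_le_pow_right (by norm_num) (by omega))).trans (hup hj)
      obtain ⟨U, hU, hcount⟩ := lower_all hμ1 hμk hw3 hd hle
      refine ⟨_, ⟨U, hU, rfl⟩, ?_⟩
      rw [← hpow μ hμk]
      exact_mod_cast hcount

end Pool.Agent.Results.MP_31d77a_co.Staircase
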